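import Pool.Agent.Lib.P913.KUniT
import Pool.Agent.Lib.P913.KInst73

/-!
# The class TM(7,3) contains a universal machine
-/

set_option autoImplicit false

namespace Pool.Agent.Results.MP_913c58_lc.UTM_7_3

open P913

/-- The Turing machine with 7 states and 3 symbols (blank `0`) which is given by the table is universal: there are
total computable maps `e` and `d` such that it halts on `e (M, x)` if and only if `M` halts on `x`, and then `d` maps
its output to the output of `M`. -/
theorem result : Universal (k := 7) (n := 3) ![
    ![(2, false, some 3), (0, false, some 1), (1, true, some 0)],
    ![(0, true, some 4), (1, false, some 3), (1, false, some 1)],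
    ![(0, true, some 6), (2, true, some 2), (1, true, some 2)],
    ![(1, false, some 0), (2, false, some 3), (2, false, some 1)],
    ![(1, true, some 5), (2, true, some 4), (1, true, some 4)],
    ![(0, false, some 0), (0, true, some 2), (0, true, none)],
    ![(0, false, some 0), (2, false, some 1), (1, false, some 2)]] :=
  universal_of_loc' ok73.loc

end Pool.Agent.Results.MP_913c58_lc.UTM_7_3
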